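import Pool.Agent.Q187.EM.Stmt

/-! Windows of unbounded length suffice. -/

namespace Pool.Agent.Q187.EM

universe u

/-- a finitely generated abelian group that is a rational vector space is zero -/
theorem subsingleton_of_fg {A : Type u} [AddCommGroup A] (hm : Nonempty (Module ℚ A))
    (hfg : AddGroup.FG A) : Subsingleton A := by
  obtain ⟨hm⟩ := hm
  have hfin : Module.Finite ℤ A := Module.Finite.iff_addGroup_fg.2 hfg
  have htop : (⊤ : Submodule ℤ A).FG := hfin.fg_top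
  have hle : (⊤ : Submodule ℤ A) ≤ (Ideal.span {(2 : ℤ)}) • (⊤ : Submodule ℤ A) := by
    intro a _
    have h1 : a = (2 : ℤ) • ((2 : ℚ)⁻¹ • a) := by
      rw [← Int.cast_smul_eq_zsmul ℚ (2 : ℤ), smul_smul]
      norm_num
    rw [h1]
    exact Submodule.smul_mem_smul (Ideal.subset_span rfl) trivial
  obtain ⟨r, hr1, hr2⟩ := Submodule.exists_sub_one_mem_and_smul_eq_zero_of_fg_of_le_smul _ _ htop hle
  have hr0 : (r : ℚ) ≠ 0 := by
    intro h
    have : r = 0 := by exact_mod_cast h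
    rw [this, Ideal.mem_span_singleton] at hr1
    omega
  refine ⟨fun a b => ?_⟩
  have key : ∀ c : A, c = 0 := by
    intro c
    have h2 := hr2 c trivial
    rw [← Int.cast_smul_eq_zsmul ℚ r] at h2
    exact (smul_eq_zero.1 h2).resolve_left hr0
  rw [key a, key b]

theorem exists_large {g : ℕ → ℕ} (hg : ¬ BddAbove (Set.range g)) (N n₀ : ℕ) :
    ∃ n, n₀ ≤ n ∧ N ≤ g n := by
  by_contra hcon
  push Not at hcon
  apply hg
  refine ⟨N + ∑ n ∈ Finset.range n₀, g n, ?_⟩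
  rintro _ ⟨n, rfl⟩
  by_cases h : n₀ ≤ n
  · have := hcon n h; omega
  · have h2 : n ∈ Finset.range n₀ := by simp; omega
    have := Finset.single_le_sum (f := g) (fun _ _ => Nat.zero_le _) h2
    omega

variable {T : Proper.{u}} (hT : IsProper T)

include hT

/-- **Windows suffice.** -/
theorem fg_of_window {g : ℕ → ℕ} (hg : ¬ BddAbove (Set.range g)) (h : WindowFG T g)
    (X : T.Sch) (m i : ℤ) (hm : (T.dim X : ℤ) ≤ m) (hi : i ≤ 2 * m) :
    AddGroup.FG (T.H X m i) := by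
  obtain ⟨n, hn, hgn⟩ := exists_large hg (2 * m - i).toNat m.toNat
  -- `n` is the dimension of `X x P^r`
  have hm0 : 0 ≤ m := le_trans (by positivity) hm
  have hnm : m ≤ n := by omega
  obtain ⟨r, hr⟩ : ∃ r : ℕ, n = T.dim X + r := ⟨n - T.dim X, by omega⟩
  obtain ⟨k, hk⟩ : ∃ k : ℕ, (n : ℤ) = m + k := ⟨(n - m).toNat, by omega⟩
  have hkr : k ≤ r := by omega
  have hdim : T.dim (T.P X r) = n := by rw [hT.dim_P, hr]
  have h1 := h (T.P X r) (i + 2 * k) (by rw [hdim]; omega) (by rw [hdim]; omega)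
  rw [hdim] at h1
  obtain ⟨e⟩ := hT.bundle X r (n : ℤ) (by omega) (i + 2 * k)
  have h2 : AddGroup.FG (T.H X ((n : ℤ) - ((⟨k, by omega⟩ : Fin (r + 1)) : ℕ))
      (i + 2 * k - 2 * ((⟨k, by omega⟩ : Fin (r + 1)) : ℕ))) := by
    refine @AddGroup.fg_of_surjective _ _ _ _ h1
      ((Pi.evalAddMonoidHom _ (⟨k, by omega⟩ : Fin (r + 1))).comp e.toAddMonoidHom) ?_
    intro y
    obtain ⟨x, hx⟩ := e.surjective (Function.update 0 _ y)
    refine ⟨x, ?_⟩
    simp only [AddMonoidHom.coe_comp, Function.comp_apply, AddEquiv.toAddMonoidHom_eq_coe,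
      AddMonoidHom.coe_coe, Pi.evalAddMonoidHom_apply, hx, Function.update_self]
  have e1 : (n : ℤ) - ((⟨k, by omega⟩ : Fin (r + 1)) : ℕ) = m := by
    show (n : ℤ) - (k : ℕ) = m
    omega
  have e2 : i + 2 * (k : ℤ) - 2 * ((⟨k, by omega⟩ : Fin (r + 1)) : ℕ) = i := by
    show i + 2 * (k : ℤ) - 2 * (k : ℕ) = i
    omega
  rw [e1, e2] at h2
  exact h2

theorem vanishing_of_window {g : ℕ → ℕ} (hg : ¬ BddAbove (Set.range g)) (h : WindowFG T g)
    (X : T.Sch) (i : ℤ) (hi : i < 0) : Subsingleton (T.H X (T.dim X) i) :=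
  subsingleton_of_fg (hT.rational X i hi)
    (fg_of_window hT hg h X (T.dim X) i le_rfl (by omega))

end Pool.Agent.Q187.EM
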