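import Pool.Agent.Q187.EM.StmtN

/-! One regular proper model of one finite extension of each function field suffices. -/

namespace Pool.Agent.Q187.EM

universe u

/-- the middle term of an exact sequence -/
theorem fg_middle {A B C : Type u} [AddCommGroup A] [AddCommGroup B] [AddCommGroup C]
    (a : A →+ B) (b : B →+ C) (h : Function.Exact a b) (hA : AddGroup.FG A)
    (hC : AddGroup.FG C) : AddGroup.FG B := by
  have hA' : Module.Finite ℤ A := Module.Finite.iff_addGroup_fg.2 hA
  have hC' : Module.Finite ℤ C := Module.Finite.iff_addGroup_fg.2 hC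
  rw [← Module.Finite.iff_addGroup_fg]
  have hr : (LinearMap.range b.toIntLinearMap).FG := by
    have : IsNoetherian ℤ C := isNoetherian_of_isNoetherianRing_of_finite ℤ C
    exact IsNoetherian.noetherian _
  have hk : (LinearMap.ker b.toIntLinearMap).FG := by
    have h1 : LinearMap.ker b.toIntLinearMap = LinearMap.range a.toIntLinearMap := by
      ext x
      exact h x
    rw [h1, LinearMap.range_eq_map]
    exact Submodule.FG.map _ hA'.fg_top
  refine ⟨Submodule.fg_of_fg_map_of_fg_inf_ker b.toIntLinearMap ?_ ?_⟩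
  · rw [← LinearMap.range_eq_map]; exact hr
  · rw [top_inf_eq]; exact hk

/-- transfers and finite torsion -/
theorem fg_transfer {A B : Type u} [AddCommGroup A] [AddCommGroup B] (m : ℕ)
    (p : A →+ B) (q : B →+ A) (hpq : ∀ x, q (p x) = m • x) (hB : AddGroup.FG B)
    (ht : {x : A | m • x = 0}.Finite) : AddGroup.FG A := by
  have hB' : Module.Finite ℤ B := Module.Finite.iff_addGroup_fg.2 hB
  have hN : IsNoetherian ℤ B := isNoetherian_of_isNoetherianRing_of_finite ℤ B
  rw [← Module.Finite.iff_addGroup_fg]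
  refine ⟨Submodule.fg_of_fg_map_of_fg_inf_ker p.toIntLinearMap ?_ ?_⟩
  · exact IsNoetherian.noetherian _
  · rw [top_inf_eq]
    have hsub : ((LinearMap.ker p.toIntLinearMap : Submodule ℤ A) : Set A) ⊆ {x : A | m • x = 0} := by
      intro x hx
      have hx' : p x = 0 := hx
      have := hpq x
      rw [hx', map_zero] at this
      exact this.symm
    have hfin : Finite (LinearMap.ker p.toIntLinearMap) := (ht.subset hsub).to_subtype
    rw [← Module.Finite.iff_fg]
    exact Module.Finite.of_finite

variable {T : Arith.{u}} (hT : IsArith T)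

include hT

theorem fg_of_open {U X Z : T.Sch} (h : T.Opn U X Z) {n : ℤ} (hn : n < 0)
    (hU : ∀ i, AddGroup.FG (T.H U n i)) (hZ : ∀ i, AddGroup.FG (T.H Z n i)) :
    ∀ i, AddGroup.FG (T.H X n i) := by
  intro i
  obtain ⟨a, b, c, h1, -⟩ := hT.coh.localization U X Z h n hn i
  exact fg_middle a b h1 (hZ i) (hU i)

theorem fg_to_open {U X Z : T.Sch} (h : T.Opn U X Z) {n : ℤ} (hn : n < 0)
    (hX : ∀ i, AddGroup.FG (T.H X n i)) (hZ : ∀ i, AddGroup.FG (T.H Z n i)) :
    ∀ i, AddGroup.FG (T.H U n i) := by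
  intro i
  obtain ⟨a, b, c, -, h2⟩ := hT.coh.localization U X Z h n hn i
  exact fg_middle b c h2 (hX i) (hZ (i + 1))

theorem fg_of_empty {X : T.Sch} (h : T.IsEmpty X) (n i : ℤ) : AddGroup.FG (T.H X n i) := by
  have := hT.coh.empty X h n i
  exact AddGroup.fg_of_finite

/-- weight `-1` -/
theorem fg_weight (hyp : ∀ U, T.Integral U → ∃ V, Alteration T U V ∧
    ∀ i ≤ 3, AddGroup.FG (T.H V (-1) i)) :
    ∀ X, ∀ i, AddGroup.FG (T.H X (-1) i) := by
  have key : ∀ (d c : ℕ) (X : T.Sch), T.dim X = d → T.comps X = c →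
      ∀ i, AddGroup.FG (T.H X (-1) i) := by
    intro d
    induction d using Nat.strong_induction_on with
    | _ d ihd =>
      intro c
      induction c using Nat.strong_induction_on with
      | _ c ihc =>
        intro X hd hc
        by_cases hE : T.IsEmpty X
        · exact fun i => fg_of_empty hT hE (-1) i
        have hsmall : ∀ Z, Small T Z d → ∀ i, AddGroup.FG (T.H Z (-1) i) := by
          intro Z hZ
          rcases hZ with hZ | hZ
          · exact fun i => fg_of_empty hT hZ (-1) i
          · exact ihd (T.dim Z) hZ (T.comps Z) Z rfl rfl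
        obtain ⟨U, Z, hO, hI, hdU, hZ⟩ := hT.strat X hE
        have hZfg : ∀ i, AddGroup.FG (T.H Z (-1) i) := by
          rcases hZ with hZ | hZ | ⟨hZ1, hZ2⟩
          · exact hsmall Z (Or.inl hZ)
          · exact hsmall Z (Or.inr (by omega))
          · exact ihc (T.comps Z) (by omega) Z (by omega) rfl
        obtain ⟨V, ⟨hreg, U', Z', V', W, h1, h2, h3, h4, h5⟩, hV⟩ := hyp U hI
        rw [hdU, hd] at h2 h5
        have hVfg := hT.refined V hreg hV
        have hV' := fg_to_open hT h4 (by norm_num : (-1 : ℤ) < 0) hVfg (hsmall W h5)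
        have hU' : ∀ i, AddGroup.FG (T.H U' (-1) i) := by
          intro i
          obtain ⟨m, hm, hmm⟩ := hT.coh.transfer V' U' h3
          obtain ⟨p, q, hpq⟩ := hmm (-1) (by norm_num) i
          exact fg_transfer m p q hpq (hV' i) (hT.coh.torsion U' (-1) (by norm_num) i m hm)
        have hU := fg_of_open hT h1 (by norm_num : (-1 : ℤ) < 0) hU' (hsmall Z' h2)
        exact fg_of_open hT hO (by norm_num : (-1 : ℤ) < 0) hU hZfg
  intro X
  exact key _ _ X rfl rfl

/-- **One model per function field suffices.** -/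
theorem allFG_iff : AllFG T ↔ ∀ U, T.Integral U → ∃ V, Alteration T U V ∧
    ∀ i ≤ 3, AddGroup.FG (T.H V (-1) i) := by
  constructor
  · intro h U hU
    obtain ⟨V, hV⟩ := hT.deJong U hU
    exact ⟨V, hV, fun i _ => h V (-1) (by norm_num) i⟩
  · intro hyp X n hn i
    obtain ⟨r, hr⟩ : ∃ r : ℕ, n = -1 - r := ⟨(-1 - n).toNat, by omega⟩
    have h1 := fg_weight hT hyp (T.A X r) (i - 2 * r)
    obtain ⟨e⟩ := hT.coh.affine X r (-1) (by norm_num) (i - 2 * r)
    have h2 : AddGroup.FG (T.H X (-1 - (r : ℤ)) (i - 2 * r + 2 * r)) :=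
      @AddGroup.fg_of_surjective _ _ _ _ h1 e.toAddMonoidHom e.surjective
    rw [sub_add_cancel, ← hr] at h2
    exact h2

end Pool.Agent.Q187.EM
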