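import Pool.Agent.Q187.EM.StmtB
import Pool.Agent.Q187.EM.Main
import Pool.Agent.Q187.EM.MainN

/-! Q1 for blow-ups of projective spaces over the integers is equivalent to Parshin's
conjecture in weights above the dimension. -/

namespace Pool.Agent.Q187.EM

universe u

theorem fg_pi_component {ι : Type} [DecidableEq ι] {A : ι → Type u} [∀ i, AddCommGroup (A i)]
    (h : AddGroup.FG ((i : ι) → A i)) (i : ι) : AddGroup.FG (A i) :=
  @AddGroup.fg_of_surjective _ _ _ _ h (Pi.evalAddMonoidHom A i)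
    (fun y => ⟨Function.update 0 i y, by simp⟩)

variable {T : BlowUps.{u}} (hT : IsBlowUps T)

include hT

theorem hy_fg_iff (Y : T.Var) (k : ℕ) (hk : 0 < k) (j : ℤ) :
    AddGroup.FG (T.HY Y k j) ↔ Subsingleton (T.HQ Y k j) := by
  obtain ⟨f, hf, hker⟩ := hT.rational Y k hk j
  constructor
  · intro h
    exact subsingleton_of_fg (hT.vector Y k j) (AddGroup.fg_of_surjective (f := f) hf)
  · intro h
    have : f.ker = ⊤ := by
      ext x
      simp only [AddMonoidHom.mem_ker, AddSubgroup.mem_top, iff_true]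
      exact Subsingleton.elim _ _
    rw [this] at hker
    have hfin : Finite (T.HY Y k j) := by
      rw [AddSubgroup.coe_top] at hker
      exact Set.finite_univ_iff.1 hker
    exact AddGroup.fg_of_finite

theorem blowUps_iff : BlowUpsFG T ↔ ParshinAbove T := by
  constructor
  · intro h Y k hk i
    by_cases hi : 2 * (k : ℤ) < i
    · exact hT.negative Y k i hi
    rw [← hy_fg_iff hT Y k hk i]
    obtain ⟨N, hN1, hN2⟩ : ∃ N, T.N0 Y ≤ N ∧ k ≤ N - T.dim Y :=
      ⟨T.N0 Y + T.dim Y + k, by omega, by omega⟩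
    obtain ⟨a, b, c, h1, -⟩ := hT.blowup Y N hN1 (i - 2 * k)
    have h2 : AddGroup.FG (Exc T Y N (i - 2 * k)) :=
      fg_middle a b h1 (hT.projective N _ (by omega)) (h Y N hN1 _ (by omega))
    have h2' : AddGroup.FG ((l : Fin (N - T.dim Y)) → T.HY Y (l + 1)
        (i - 2 * k + 2 * ((l : ℤ) + 1))) := h2
    have h3 := fg_pi_component h2' (⟨k - 1, by omega⟩ : Fin (N - T.dim Y))
    have e1 : ((⟨k - 1, by omega⟩ : Fin (N - T.dim Y)) : ℕ) + 1 = k := by
      show k - 1 + 1 = k
      omega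
    have e2 : i - 2 * k + 2 * (((⟨k - 1, by omega⟩ : Fin (N - T.dim Y)) : ℕ) + 1 : ℤ) = i := by
      show i - 2 * (k : ℤ) + 2 * (((k - 1 : ℕ) : ℤ) + 1) = i
      omega
    rw [e1, e2] at h3
    exact h3
  · intro h Y N hN j hj
    obtain ⟨a, b, c, -, h2⟩ := hT.blowup Y N hN j
    refine fg_middle b c h2 ?_ (hT.projective N j hj)
    have : ∀ k : Fin (N - T.dim Y), AddGroup.FG (T.HY Y (k + 1) (j + 2 * ((k : ℤ) + 1))) := by
      intro k
      exact (hy_fg_iff hT Y (k + 1) (Nat.succ_pos _) _).2 (h Y (k + 1) (Nat.succ_pos _) _)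
    have h3 : ∀ k : Fin (N - T.dim Y), Module.Finite ℤ (T.HY Y (k + 1) (j + 2 * ((k : ℤ) + 1))) :=
      fun k => Module.Finite.iff_addGroup_fg.2 (this k)
    exact Module.Finite.iff_addGroup_fg.1 (Module.Finite.pi)

end Pool.Agent.Q187.EM
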