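import Mathlib

/-!
Etale motivic cohomology of arithmetic schemes in weights at least the dimension:
definitions.
-/

namespace Pool.Agent.Q187.EM

universe u

/-- Proper regular connected arithmetic schemes and their etale motivic cohomology. -/
structure Proper where
  Sch : Type u
  dim : Sch → ℕ
  /-- `H X m i` is the group `H^i(X_et, Z(m))` -/
  H : Sch → ℤ → ℤ → Type u
  grp : ∀ X m i, AddCommGroup (H X m i)
  /-- `P X r` is the product of `X` and the projective space of dimension `r` -/
  P : Sch → ℕ → Sch

attribute [instance] Proper.grp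

/-- The projective bundle formula in weights at least the dimension, and the fact that in
weight `dim X` and negative degrees the groups are `Q`-vector spaces
(`H^i(X_et, Z(d)) = H^i(X, Q(d))` for `i < 0`). -/
structure IsProper (T : Proper.{u}) : Prop where
  dim_P : ∀ X r, T.dim (T.P X r) = T.dim X + r
  bundle : ∀ (X : T.Sch) (r : ℕ) (m : ℤ), (T.dim X : ℤ) + r ≤ m → ∀ i : ℤ,
    Nonempty (T.H (T.P X r) m i ≃+ ((k : Fin (r + 1)) → T.H X (m - k) (i - 2 * k)))
  rational : ∀ X, ∀ i : ℤ, i < 0 → Nonempty (Module ℚ (T.H X (T.dim X) i))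

/-- Finite generation in weight `dim X` in the degrees from `2 dim X - g (dim X)` to
`2 dim X`, for all `X`. -/
def WindowFG (T : Proper.{u}) (g : ℕ → ℕ) : Prop :=
  ∀ X, ∀ i : ℤ, 2 * (T.dim X : ℤ) - g (T.dim X) ≤ i → i ≤ 2 * T.dim X →
    AddGroup.FG (T.H X (T.dim X) i)

end Pool.Agent.Q187.EM
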