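import Mathlib

/-!
Blow-ups of projective spaces over the integers along smooth projective varieties over
finite fields, and Parshin's conjecture in weights above the dimension: definitions.

We use the numbering of the cycle complexes: for a regular proper scheme `X` of dimension
`d` the group with indices `k` and `j` is `H^(2d+j)(X_et, Z(d+k))`.
-/

namespace Pool.Agent.Q187.EM

universe u

/-- The groups that occur. -/
structure BlowUps where
  /-- smooth projective varieties over finite fields -/
  Var : Type u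
  dim : Var → ℕ
  /-- `Y` embeds in the projective space `P^N` over the integers for `N0 Y ≤ N` -/
  N0 : Var → ℕ
  /-- `HP N j` is `H^(2(N+1)+j)(X_et, Z(N+1))` for the projective space `X` of relative
  dimension `N` over the integers -/
  HP : ℕ → ℤ → Type u
  /-- `HB Y N j` is the same group for the blow-up of that space along `Y` -/
  HB : Var → ℕ → ℤ → Type u
  /-- `HY Y k j` is `H^(2d+j)(Y_et, Z(d+k))`, `d = dim Y` -/
  HY : Var → ℕ → ℤ → Type u
  /-- `HQ Y k j` is `H^(2d+j)(Y, Q(d+k))`, a `Q`-vector space -/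
  HQ : Var → ℕ → ℤ → Type u
  gP : ∀ N j, AddCommGroup (HP N j)
  gB : ∀ Y N j, AddCommGroup (HB Y N j)
  gY : ∀ Y k j, AddCommGroup (HY Y k j)
  gQ : ∀ Y k j, AddCommGroup (HQ Y k j)

attribute [instance] BlowUps.gP BlowUps.gB BlowUps.gY BlowUps.gQ

variable (T : BlowUps.{u})

/-- The sum of the groups `HY Y k (j + 2k)` for `0 < k < c`, where `c = N + 1 - dim Y` is
the codimension of `Y`: the kernel of `H^j(E, Z^c(0)) → H^j(Y, Z^c(0))` for the exceptional
divisor `E`, a projective bundle over `Y`. -/
def Exc (Y : T.Var) (N : ℕ) (j : ℤ) : Type u :=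
  (k : Fin (N - T.dim Y)) → T.HY Y (k + 1) (j + 2 * ((k : ℤ) + 1))

instance excGroup (Y : T.Var) (N : ℕ) (j : ℤ) : AddCommGroup (Exc T Y N j) :=
  Pi.addCommGroup

/-- The localization sequences of the blow-ups. -/
def BlowUpSequence : Prop :=
  ∀ Y N, T.N0 Y ≤ N → ∀ j : ℤ,
    ∃ (a : T.HP N (j - 1) →+ Exc T Y N j) (b : Exc T Y N j →+ T.HB Y N j)
      (c : T.HB Y N j →+ T.HP N j), Function.Exact a b ∧ Function.Exact b c

/-- In weights above the dimension, `H^i(Y_et, Z(m)) → H^i(Y, Q(m))` is surjective with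
finite kernel (Deligne, Gabber: `H^i(Y_et, Q/Z(m))` is finite for all `i`). -/
def Comparison : Prop :=
  ∀ Y k, 0 < k → ∀ j, ∃ f : T.HY Y k j →+ T.HQ Y k j,
    Function.Surjective f ∧ (f.ker : Set (T.HY Y k j)).Finite

/-- Known properties. -/
structure IsBlowUps : Prop where
  blowup : BlowUpSequence T
  /-- finite generation for the projective spaces over the integers -/
  projective : ∀ N, ∀ j ≤ 0, AddGroup.FG (T.HP N j)
  rational : Comparison T
  vector : ∀ Y k j, Nonempty (Module ℚ (T.HQ Y k j))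
  /-- the groups `CH(Y, t)` are zero for negative `t` -/
  negative : ∀ (Y : T.Var) (k : ℕ) (j : ℤ), 2 * (k : ℤ) < j → Subsingleton (T.HQ Y k j)

/-- Q1 for all these blow-ups: finite generation of `H^i(X_et, Z(N+1))`, `i ≤ 2(N+1)`. -/
def BlowUpsFG : Prop := ∀ Y N, T.N0 Y ≤ N → ∀ j ≤ 0, AddGroup.FG (T.HB Y N j)

/-- Parshin's conjecture in weights above the dimension: `H^i(Y, Q(m)) = 0` for all `i` and
all `m > dim Y`. -/
def ParshinAbove : Prop := ∀ Y k, 0 < k → ∀ j, Subsingleton (T.HQ Y k j)

end Pool.Agent.Q187.EM
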