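import Mathlib

/-!
Etale cohomology of the cycle complexes `Z^c(n)`, `n < 0`, of arithmetic schemes:
definitions.
-/

namespace Pool.Agent.Q187.EM

universe u

/-- Reduced arithmetic schemes and the groups `H^i(X_et, Z^c(n))`. (For an arithmetic scheme `X` the
groups depend only on the reduced scheme: `z_n(X, i)` and the etale site do.) -/
structure Arith where
  /-- the reduced arithmetic schemes -/
  Sch : Type u
  IsEmpty : Sch → Prop
  dim : Sch → ℕ
  /-- the number of irreducible components of maximal dimension -/
  comps : Sch → ℕ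
  Integral : Sch → Prop
  /-- regular and proper over the integers -/
  RegularProper : Sch → Prop
  /-- `Opn U X Z`: `U` is an open subscheme of `X` with reduced complement `Z` -/
  Opn : Sch → Sch → Sch → Prop
  /-- `Fet V U`: there is a finite etale morphism `V → U` of constant positive degree -/
  Fet : Sch → Sch → Prop
  /-- the affine space of dimension `r` over `X` -/
  A : Sch → ℕ → Sch
  /-- `H X n i` is `H^i(X_et, Z^c(n))` -/
  H : Sch → ℤ → ℤ → Type u
  grp : ∀ X n i, AddCommGroup (H X n i)

attribute [instance] Arith.grp

variable (T : Arith.{u})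

/-- `Z` is empty or of dimension less than `d`. -/
def Small (Z : T.Sch) (d : ℕ) : Prop := T.IsEmpty Z ∨ T.dim Z < d

/-- Known properties of the groups, for `n < 0`: localization, finite etale transfer,
finiteness of the `m`-torsion, affine spaces. -/
structure IsCycleCohomology : Prop where
  empty : ∀ X, T.IsEmpty X → ∀ n i, Subsingleton (T.H X n i)
  localization : ∀ U X Z, T.Opn U X Z → ∀ n < 0, ∀ i,
    ∃ (a : T.H Z n i →+ T.H X n i) (b : T.H X n i →+ T.H U n i) (c : T.H U n i →+ T.H Z n (i + 1)),
      Function.Exact a b ∧ Function.Exact b c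
  transfer : ∀ V U, T.Fet V U → ∃ m : ℕ, 0 < m ∧ ∀ n < 0, ∀ i,
    ∃ (p : T.H U n i →+ T.H V n i) (q : T.H V n i →+ T.H U n i), ∀ x, q (p x) = m • x
  torsion : ∀ X, ∀ n < 0, ∀ i, ∀ m : ℕ, 0 < m → {x : T.H X n i | m • x = 0}.Finite
  affine : ∀ (X : T.Sch) (r : ℕ), ∀ n < 0, ∀ i : ℤ,
    Nonempty (T.H (T.A X r) n i ≃+ T.H X (n - r) (i + 2 * r))

/-- Every nonempty (reduced) scheme has an integral open subscheme `U` of the same dimension whose
complement is smaller (in dimension, or in the number of components of that dimension). -/
def Stratified : Prop :=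
  ∀ X, ¬ T.IsEmpty X → ∃ U Z, T.Opn U X Z ∧ T.Integral U ∧ T.dim U = T.dim X ∧
    (T.IsEmpty Z ∨ T.dim Z < T.dim X ∨ (T.dim Z = T.dim X ∧ T.comps Z < T.comps X))

/-- `V` is regular, proper over the integers, and a dense open subscheme of `V` is finite
etale over a dense open subscheme of `U`: a regular proper model of a finite separable
extension of the function field of `U`. -/
def Alteration (U V : T.Sch) : Prop :=
  T.RegularProper V ∧ ∃ U' Z' V' W, T.Opn U' U Z' ∧ Small T Z' (T.dim U) ∧ T.Fet V' U' ∧
    T.Opn V' V W ∧ Small T W (T.dim U)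

/-- de Jong. -/
def DeJong : Prop := ∀ U, T.Integral U → ∃ V, Alteration T U V

/-- The equivalence of the problem file: for regular proper schemes finite generation in
degrees `i ≤ -2n + 1` (here `n = -1`) implies finite generation in all degrees. -/
def Refined : Prop :=
  ∀ V, T.RegularProper V → (∀ i ≤ 3, AddGroup.FG (T.H V (-1) i)) → ∀ i, AddGroup.FG (T.H V (-1) i)

/-- The known properties. -/
structure IsArith : Prop where
  coh : IsCycleCohomology T
  strat : Stratified T
  deJong : DeJong T
  refined : Refined T

/-- Finite generation for all arithmetic schemes, all `n < 0` and all degrees. -/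
def AllFG : Prop := ∀ X, ∀ n < 0, ∀ i, AddGroup.FG (T.H X n i)

end Pool.Agent.Q187.EM
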